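import Pool.Agent.Lib.MP_28303a_al.NT.A.Iface

/-! # CONEX: extensions of objects which come from `k[t]` come from `k[t]` -/

set_option autoImplicit false
set_option linter.unusedSectionVars false
set_option linter.unusedVariables false

namespace Pool.Agent.NegK.NT.H90

universe u

open CategoryTheory Limits Pretriangulated

section

variable {k : Type u} [Ring k] {Γ : Type u} [Group Γ] {B : Type u} [MulAction Γ B] {P : Pre Γ B}

theorem cenC_comp (z z' : k) (hz : ∀ x, z * x = x * z) (hz' : ∀ x, z' * x = x * z')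
    (h : z' * z = 1) (E : CochainComplex (Loc k P) ℤ) : cenC z hz E ≫ cenC z' hz' E = 𝟙 E := by
  refine HomologicalComplex.hom_ext _ _ fun i => Loc.hom_ext (LinearMap.ext fun x => ?_)
  change (MonoidAlgebra.single (1 : Γ) z' : MonoidAlgebra k Γ) •
    ((MonoidAlgebra.single (1 : Γ) z : MonoidAlgebra k Γ) • x) = x
  rw [smul_smul, MonoidAlgebra.single_mul_single, mul_one, h]
  exact one_smul _ x

theorem zz_comp (z z' : k) (hz : ∀ x, z * x = x * z) (hz' : ∀ x, z' * x = x * z')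
    (h : z' * z = 1) (X : KK k P) : (zz z hz).app X ≫ (zz z' hz').app X = 𝟙 X := by
  change (HomotopyCategory.quotient (Loc k P) (ComplexShape.up ℤ)).map (cenC z hz X.as) ≫
    (HomotopyCategory.quotient (Loc k P) (ComplexShape.up ℤ)).map (cenC z' hz' X.as) = _
  rw [← Functor.map_comp, cenC_comp z z' hz hz' h]
  exact CategoryTheory.Functor.map_id _ _

theorem isIso_tn (n : ℤ) (X : KK (LaurentPolynomial k) P) : IsIso ((tn n).app X) := by
  have h1 : LaurentPolynomial.T (-n) * LaurentPolynomial.T n = (1 : LaurentPolynomial k) := by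
    rw [← LaurentPolynomial.T_add, neg_add_cancel, LaurentPolynomial.T_zero]
  have h2 : LaurentPolynomial.T n * LaurentPolynomial.T (-n) = (1 : LaurentPolynomial k) := by
    rw [← LaurentPolynomial.T_add, add_neg_cancel, LaurentPolynomial.T_zero]
  exact ⟨⟨(tn (-n)).app X, zz_comp _ _ _ _ h1 X, zz_comp _ _ _ _ h2 X⟩⟩

end

/-- Lifting of triangles along a triangulated functor. -/
theorem lift_tri {C D : Type*} [Category* C] [Category* D] [HasShift C ℤ] [HasShift D ℤ]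
    [Preadditive C] [Preadditive D] [HasZeroObject C] [HasZeroObject D]
    [∀ n : ℤ, (shiftFunctor C n).Additive] [∀ n : ℤ, (shiftFunctor D n).Additive]
    [Pretriangulated C] [Pretriangulated D] (L : C ⥤ D) [L.CommShift ℤ] [L.IsTriangulated]
    (Δ : Triangle D) (hΔ : Δ ∈ distTriang D) {Y1 Y2 Y3 : C} (e1 : L.obj Y1 ≅ Δ.obj₁)
    (e3 : L.obj Y3 ≅ Δ.obj₃) (τ : L.obj Y3 ⟶ L.obj Y3) (hτ : IsIso τ)
    (f : Y1 ⟶ Y2) (g : Y2 ⟶ Y3) (ψ : Y3 ⟶ Y1⟦(1 : ℤ)⟧) (hT : Triangle.mk f g ψ ∈ distTriang C)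
    (hψ : L.map ψ = τ ≫ e3.hom ≫ Δ.mor₃ ≫ (e1.inv)⟦(1 : ℤ)⟧' ≫
      (L.commShiftIso (1 : ℤ)).inv.app Y1) : Nonempty (L.obj Y2 ≅ Δ.obj₂) := by
  have hL := L.map_distinguished _ hT
  have hc : (L.mapTriangle.obj (Triangle.mk f g ψ)).mor₃ ≫ (e1.hom)⟦(1 : ℤ)⟧' =
      (τ ≫ e3.hom) ≫ Δ.mor₃ := by
    change (L.map ψ ≫ (L.commShiftIso (1 : ℤ)).hom.app Y1) ≫ (e1.hom)⟦(1 : ℤ)⟧' = _
    rw [hψ]
    simp only [Category.assoc, Iso.inv_hom_id_app_assoc]
    rw [← Functor.map_comp, e1.inv_hom_id, CategoryTheory.Functor.map_id, Category.comp_id]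
  obtain ⟨b, hb1, hb2⟩ := complete_distinguished_triangle_morphism₂ _ _ hL hΔ e1.hom
    (τ ≫ e3.hom) hc
  have h1 : IsIso e1.hom := inferInstance
  have h3 : IsIso (τ ≫ e3.hom) := inferInstance
  have h2 : IsIso b := isIso₂_of_isIso₁₃
    (Triangle.homMk (L.mapTriangle.obj (Triangle.mk f g ψ)) Δ e1.hom b (τ ≫ e3.hom) hb1 hb2 hc)
    hL hΔ h1 h3
  exact ⟨@asIso _ _ _ _ b h2⟩

/-- CONEX. -/
theorem conex (hPer : PerStatement.{u}) (hDen : DenStatement.{u}) : ConexStatement.{u} := by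
  intro Γ _ T S J k _ Δ hΔ
  rintro ⟨Y1, hY1, ⟨e1⟩⟩ ⟨Y3, hY3, ⟨e3⟩⟩
  obtain ⟨n, ψ, hψ⟩ := hDen k Γ T.Box (T.P S) Y3 (Y1⟦(1 : ℤ)⟧) hY3.per
    (e3.hom ≫ Δ.mor₃ ≫ (e1.inv)⟦(1 : ℤ)⟧' ≫ ((loc k (T.P S)).commShiftIso (1 : ℤ)).inv.app Y1)
  obtain ⟨Y2, f, g, hT⟩ := distinguished_cocone_triangle₂ ψ
  have hPJ : T.PJ S J (Polynomial k) Y2 := by
    refine ⟨(hPer (Polynomial k) Γ T.Box (T.P S)).2 _ hT hY1.per hY3.per, fun j hj => ?_⟩
    exact Triangle.isZero₂_of_isZero₁₃ _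
      ((T.L (Polynomial k) (S.erase_subset j)).map_distinguished _ hT) (hY1.ac j hj) (hY3.ac j hj)
  exact ⟨Y2, hPJ, lift_tri (loc k (T.P S)) Δ hΔ e1 e3
    ((tn (n : ℤ)).app ((loc k (T.P S)).obj Y3)) (isIso_tn (n : ℤ) _) f g ψ hT hψ⟩

end Pool.Agent.NegK.NT.H90
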